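import Pool.Agent.H24.SCG2.Base3

/-!
Project SCG2, module CGG: generation for the family `C`.
-/

set_option autoImplicit false

namespace Pool.SCG

open Matrix

namespace CGG

variable {F : Type*} [Field F]

/-- the Fourier basis -/
def PF (τ w : F) : Matrix (Fin 3) (Fin 3) F := !![τ, τ, τ; 1, w, w ^ 2; 1, w ^ 2, w]

/-- three `τ` times its inverse -/
def QF (τ w : F) : Matrix (Fin 3) (Fin 3) F :=
  !![1, τ, τ; 1, τ * w ^ 2, τ * w; 1, τ * w, τ * w ^ 2]

theorem cube {w : F} (hw : w ^ 2 + w + 1 = 0) : w ^ 3 = 1 := by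
  linear_combination (w - 1) * hw

theorem PF_QF {τ w : F} (hw : w ^ 2 + w + 1 = 0) :
    PF τ w * QF τ w = (3 * τ) • (1 : Matrix (Fin 3) (Fin 3) F) := by
  have h3 := cube hw
  ext i j
  fin_cases i <;> fin_cases j <;>
    simp [PF, QF, Matrix.mul_apply, Fin.sum_univ_three] <;>
    first
    | ring1
    | linear_combination (τ ^ 2) * hw
    | linear_combination hw
    | linear_combination τ * (w ^ 2 - w + 1) * hw
    | linear_combination (2 * τ) * h3

theorem QF_PF {τ w : F} (hw : w ^ 2 + w + 1 = 0) :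
    QF τ w * PF τ w = (3 * τ) • (1 : Matrix (Fin 3) (Fin 3) F) := by
  have h3 := cube hw
  ext i j
  fin_cases i <;> fin_cases j <;>
    simp [PF, QF, Matrix.mul_apply, Fin.sum_univ_three] <;>
    first
    | ring1
    | linear_combination τ * hw
    | linear_combination τ * (w ^ 2 - w + 1) * hw
    | linear_combination (2 * τ) * h3

/-- the base change -/
def PG {τ w : F} (hw : w ^ 2 + w + 1 = 0) (h : (3 * τ) ≠ 0) : GL (Fin 3) F where
  val := PF τ w
  inv := (3 * τ)⁻¹ • QF τ w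
  val_inv := by
    rw [Matrix.mul_smul, PF_QF hw, smul_smul, inv_mul_cancel₀ h, one_smul]
  inv_val := by
    rw [Matrix.smul_mul, QF_PF hw, smul_smul, inv_mul_cancel₀ h, one_smul]

/-- the inner automorphisms and the base change -/
theorem inA_base {H K : Subgroup (MulAut (SL3 F))} (P : GL (Fin 3) F)
    (hK : ∀ x ∈ K, diagAut P * x * (diagAut P)⁻¹ ∈ H) {A : Matrix (Fin 3) (Fin 3) F}
    (hA : InA K A) : InA H ((P : Matrix (Fin 3) (Fin 3) F) * A *
      ((P⁻¹ : GL (Fin 3) F) : Matrix (Fin 3) (Fin 3) F)) := by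
  obtain ⟨g, rfl, hg⟩ := hA
  refine ⟨diagAut P g, diagAut_coe P g, ?_⟩
  have e : MulAut.conj (diagAut P g) = diagAut P * MulAut.conj g * (diagAut P)⁻¹ := by
    ext x : 1
    rw [MulAut.conj_apply, MulAut.mul_apply, MulAut.mul_apply, MulAut.conj_apply, map_mul,
      map_mul, map_inv, MulAut.apply_inv_self]
  rw [e]
  exact hK _ hg

/-- vectors and covectors of the plane -/
theorem blk_eq {u φ : Fin 3 → F} (hu : u 0 = 0) (hφ : φ 0 = 0) :
    blk 1 !![1 + u 1 * φ 1, u 1 * φ 2; u 2 * φ 1, 1 + u 2 * φ 2] = 1 + vecMulVec u φ := by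
  ext i j
  fin_cases i <;> fin_cases j <;> simp [blk, vecMulVec_apply, hu, hφ]

/-- the first plane -/
theorem plane {H K : Subgroup (MulAut (SL3 F))} {τ w : F} (hw : w ^ 2 + w + 1 = 0)
    (h : (3 * τ) ≠ 0) (hK : ∀ x ∈ K, diagAut (PG hw h) * x * (diagAut (PG hw h))⁻¹ ∈ H)
    (hb : ∀ g : M2 F, g.det = 1 → InA K (blk 1 g)) (u φ : Fin 3 → F)
    (h1 : ![1, τ, τ] ⬝ᵥ u = 0) (h2 : φ ⬝ᵥ ![τ, 1, 1] = 0) (h3 : φ ⬝ᵥ u = 0) :
    InA H (1 + vecMulVec u φ) := by
  set P := PG hw h with hP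
  set Pm : Matrix (Fin 3) (Fin 3) F := (P : Matrix (Fin 3) (Fin 3) F) with hPm
  set Qm : Matrix (Fin 3) (Fin 3) F := ((P⁻¹ : GL (Fin 3) F) : Matrix (Fin 3) (Fin 3) F) with hQm
  have ePQ : Pm * Qm = 1 := by rw [hPm, hQm, ← Units.val_mul, mul_inv_cancel, Units.val_one]
  have eu : (Qm *ᵥ u) 0 = 0 := by
    have : (Qm *ᵥ u) 0 = (3 * τ)⁻¹ * (![1, τ, τ] ⬝ᵥ u) := by
      show (((3 * τ)⁻¹ • QF τ w) *ᵥ u) 0 = _
      rw [Matrix.smul_mulVec, Pi.smul_apply, smul_eq_mul]
      rfl
    rw [this, h1, mul_zero]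
  have eφ : (φ ᵥ* Pm) 0 = 0 := by
    have : (φ ᵥ* Pm) 0 = φ ⬝ᵥ ![τ, 1, 1] := by
      show (φ ᵥ* PF τ w) 0 = _
      simp [PF, Matrix.vecMul, dotProduct, Fin.sum_univ_three]
    rw [this, h2]
  have e : 1 + vecMulVec u φ = Pm * (1 + vecMulVec (Qm *ᵥ u) (φ ᵥ* Pm)) * Qm := by
    rw [mul_add, add_mul, mul_one, ePQ, mul_vecMulVec, vecMulVec_mul, Matrix.mulVec_mulVec,
      Matrix.vecMul_vecMul, ePQ, Matrix.one_mulVec, Matrix.vecMul_one]
  rw [e, ← blk_eq eu eφ]
  refine inA_base P hK (hb _ ?_)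
  have e2 : (φ ᵥ* Pm) ⬝ᵥ (Qm *ᵥ u) = 0 := by
    rw [← Matrix.dotProduct_mulVec, Matrix.mulVec_mulVec, ePQ, Matrix.one_mulVec, h3]
  rw [dotProduct, Fin.sum_univ_three, eφ, zero_mul, zero_add] at e2
  rw [Matrix.det_fin_two]
  simp
  linear_combination e2

/-- conjugation of a transvection with a permutation -/
theorem conj_swap (u φ : Fin 3 → F) :
    !![0, 1, 0; 1, 0, 0; 0, 0, 1] * (1 + vecMulVec ![u 1, u 0, u 2] ![φ 1, φ 0, φ 2]) *
      !![0, 1, 0; 1, 0, 0; 0, 0, 1] = 1 + vecMulVec u φ := by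
  have e1 : !![0, 1, 0; 1, 0, 0; 0, 0, 1] * !![0, 1, 0; 1, 0, 0; 0, 0, 1] =
      (1 : Matrix (Fin 3) (Fin 3) F) := by
    ext i j
    fin_cases i <;> fin_cases j <;> simp [Matrix.mul_apply, Fin.sum_univ_three]
  have e2 : !![0, 1, 0; 1, 0, 0; 0, 0, 1] *ᵥ ![u 1, u 0, u 2] = u := by
    ext i
    fin_cases i <;> simp [Matrix.mulVec, dotProduct, Fin.sum_univ_three]
  have e3 : ![φ 1, φ 0, φ 2] ᵥ* !![0, 1, 0; 1, 0, 0; 0, 0, 1] = φ := by
    ext i
    fin_cases i <;> simp [Matrix.vecMul, dotProduct, Fin.sum_univ_three]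
  rw [mul_add, add_mul, mul_vecMulVec, vecMulVec_mul, mul_one, e1, e2, e3]

end CGG

open CGG in
theorem cgg_thm (hPAR : PARStmt) (hPLN : PLNStmt) (hCGA : CGAStmt) : CGGStmt := by
  intro F _ _ hF τ w hτ a b c d hG
  obtain ⟨p, -, -, -, h2, h3, -⟩ := hPAR F hF
  have hw := hτ.hw
  have h3τ : 3 * τ ≠ 0 := mul_ne_zero h3 hτ.t0
  set H := Subgroup.closure ({a, b, c, d} : Set (MulAut (SL3 F))) with hH
  have ha : a ∈ H := Subgroup.subset_closure (by simp)
  have hb : b ∈ H := Subgroup.subset_closure (by simp)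
  have hc : c ∈ H := Subgroup.subset_closure (by simp)
  have hd : d ∈ H := Subgroup.subset_closure (by simp)
  set P := PG hw h3τ with hP
  have hcube := cube hw
  -- the base change of the generators
  have ga : GIs ((diagAut P)⁻¹ * a * diagAut P) true
      (blk (-(τ * (τ + 2))) !![τ ^ 2 - 1, τ ^ 2 + τ + 1; τ ^ 2 + τ + 1, τ ^ 2 - 1]) := by
    have h := (hG.ha.bc_outer P).smul (inv_ne_zero h3)
    have e : (3 : F)⁻¹ • ((P : Matrix (Fin 3) (Fin 3) F).transpose *
        !![1, -(τ + 1), -(τ + 1); -(τ + 1), 1, -(τ + 1); -(τ + 1), -(τ + 1), 1] *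
        (P : Matrix (Fin 3) (Fin 3) F)) =
        blk (-(τ * (τ + 2))) !![τ ^ 2 - 1, τ ^ 2 + τ + 1; τ ^ 2 + τ + 1, τ ^ 2 - 1] := by
      rw [inv_smul_eq_iff₀ h3]
      show (PF τ w)ᵀ * _ * PF τ w = _
      ext i j
      fin_cases i <;> fin_cases j <;>
        simp [PF, blk, Matrix.mul_apply, Fin.sum_univ_three] <;>
        first
        | ring1
        | linear_combination (-(2 * τ + τ ^ 2)) * hw
        | linear_combination (-2 * τ * w - 2 * τ ^ 2 + w ^ 2 - 3 * w + 3) * hw
        | linear_combination (-2 * τ ^ 2 - τ * (w ^ 2 - w + 3) - (w ^ 2 - 3 * w + 3)) * hw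
        | linear_combination τ * hw
        | linear_combination (w * τ) * hcube
        | linear_combination (w * τ) * hw
        | linear_combination τ * (w ^ 2 - w + 1) * hw
        | linear_combination (2 * τ) * hcube
    rwa [e] at h
  have gb : GIs ((diagAut P)⁻¹ * b * diagAut P) true (dg 1 w (w ^ 2)) := by
    have h := (hG.hb.bc_outer P).smul (inv_ne_zero h3τ)
    have e : (3 * τ)⁻¹ • ((P : Matrix (Fin 3) (Fin 3) F).transpose *
        !![0, 1, 0; 1, 0, 0; 0, 0, τ] * (P : Matrix (Fin 3) (Fin 3) F)) = dg 1 w (w ^ 2) := by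
      rw [inv_smul_eq_iff₀ h3τ]
      show (PF τ w)ᵀ * _ * PF τ w = _
      ext i j
      fin_cases i <;> fin_cases j <;>
        simp [PF, dg, Matrix.mul_apply, Fin.sum_univ_three] <;>
        first
        | ring1
        | linear_combination (-(2 * τ + τ ^ 2)) * hw
        | linear_combination (-2 * τ * w - 2 * τ ^ 2 + w ^ 2 - 3 * w + 3) * hw
        | linear_combination (-2 * τ ^ 2 - τ * (w ^ 2 - w + 3) - (w ^ 2 - 3 * w + 3)) * hw
        | linear_combination τ * hw
        | linear_combination (w * τ) * hcube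
        | linear_combination (w * τ) * hw
        | linear_combination τ * (w ^ 2 - w + 1) * hw
        | linear_combination (2 * τ) * hcube
    rwa [e] at h
  have gc : GIs ((diagAut P)⁻¹ * c * diagAut P) false (blk 1 !![0, 1; 1, 0]) := by
    have h := hG.hc.bc_inner P
    have e : ((P⁻¹ : GL (Fin 3) F) : Matrix (Fin 3) (Fin 3) F) * !![1, 0, 0; 0, 0, 1; 0, 1, 0] *
        (P : Matrix (Fin 3) (Fin 3) F) = blk 1 !![0, 1; 1, 0] := by
      show ((3 * τ)⁻¹ • QF τ w) * _ * PF τ w = _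
      rw [Matrix.smul_mul, Matrix.smul_mul, inv_smul_eq_iff₀ h3τ]
      ext i j
      fin_cases i <;> fin_cases j <;>
        simp [PF, QF, blk, Matrix.mul_apply, Fin.sum_univ_three] <;>
        first
        | ring1
        | linear_combination (-(2 * τ + τ ^ 2)) * hw
        | linear_combination (-2 * τ * w - 2 * τ ^ 2 + w ^ 2 - 3 * w + 3) * hw
        | linear_combination (-2 * τ ^ 2 - τ * (w ^ 2 - w + 3) - (w ^ 2 - 3 * w + 3)) * hw
        | linear_combination τ * hw
        | linear_combination (w * τ) * hcube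
        | linear_combination (w * τ) * hw
        | linear_combination τ * (w ^ 2 - w + 1) * hw
        | linear_combination (2 * τ) * hcube
    rwa [e] at h
  have hK := hCGA F hF τ w hτ _ _ _ ga gb gc
  have hKH : ∀ x ∈ Subgroup.closure ({(diagAut P)⁻¹ * a * diagAut P,
      (diagAut P)⁻¹ * b * diagAut P, (diagAut P)⁻¹ * c * diagAut P} : Set (MulAut (SL3 F))),
      diagAut P * x * (diagAut P)⁻¹ ∈ H := by
    intro x hx
    induction hx using Subgroup.closure_induction with
    | mem x hx =>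
      rcases hx with rfl | rfl | rfl
      · have : diagAut P * ((diagAut P)⁻¹ * a * diagAut P) * (diagAut P)⁻¹ = a := by group
        rw [this]
        exact ha
      · have : diagAut P * ((diagAut P)⁻¹ * b * diagAut P) * (diagAut P)⁻¹ = b := by group
        rw [this]
        exact hb
      · have : diagAut P * ((diagAut P)⁻¹ * c * diagAut P) * (diagAut P)⁻¹ = c := by group
        rw [this]
        exact hc
    | one => simp
    | mul x y _ _ hx hy =>
      have : diagAut P * (x * y) * (diagAut P)⁻¹ =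
        (diagAut P * x * (diagAut P)⁻¹) * (diagAut P * y * (diagAut P)⁻¹) := by group
      rw [this]
      exact H.mul_mem hx hy
    | inv x _ hx =>
      have : diagAut P * x⁻¹ * (diagAut P)⁻¹ = (diagAut P * x * (diagAut P)⁻¹)⁻¹ := by group
      rw [this]
      exact H.inv_mem hx
  have pl := plane hw h3τ hKH hK
  refine hPLN F H ![1, τ, τ] ![τ, 1, 1] ![τ, 1, τ] ![1, τ, 1] ![τ, τ, -1 - τ] pl ?_ ?_ ?_ ?_ ?_
    ?_ ⟨![τ, -1, 0], ?_, ?_⟩
  · intro u φ h1 h4 h5
    have e1 := pl ![u 1, u 0, u 2] ![φ 1, φ 0, φ 2]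
      (by
        rw [← h1]
        simp [dotProduct, Fin.sum_univ_three]
        ring)
      (by
        rw [← h4]
        simp [dotProduct, Fin.sum_univ_three]
        ring)
      (by
        rw [← h5]
        simp [dotProduct, Fin.sum_univ_three]
        ring)
    have e2 := e1.conj hd hG.hd (D' := !![0, 1, 0; 1, 0, 0; 0, 0, 1]) (c := 1)
      (by
        ext i j
        fin_cases i <;> fin_cases j <;> simp [Matrix.mul_apply, Fin.sum_univ_three])
      one_ne_zero
    rwa [inv_one, one_smul, conj_swap] at e2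
  · simp [dotProduct, Fin.sum_univ_three]
    intro h
    exact h3τ (by linear_combination h)
  · simp [dotProduct, Fin.sum_univ_three]
    intro h
    exact h3τ (by linear_combination h)
  · simp [dotProduct, Fin.sum_univ_three]
    ring
  · simp [dotProduct, Fin.sum_univ_three]
    ring
  · rw [Matrix.det_fin_three]
    simp
    intro h
    have h6 : (1 - τ) * (τ ^ 2 + 4 * τ + 1) = 0 := by linear_combination h
    rcases mul_eq_zero.1 h6 with h7 | h7
    · exact hτ.t1 (by linear_combination (-(1 + τ)) * h7)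
    · exact hτ.t5 h7
  · simp [dotProduct, Fin.sum_univ_three]
  · simp [dotProduct, Fin.sum_univ_three]
    intro h
    exact hτ.t1 (by linear_combination h)

end Pool.SCG
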