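import Pool.Agent.H24.SCG2.Stmts5
import Pool.Agent.H24.SCG2.Base3

/-!
Project SCG2, module PSI: the map from the automorphisms of `SL(3,F)` to those of `PSL(3,F)`
is injective.
-/

set_option autoImplicit false

namespace Pool.SCG

open Matrix

namespace PSI

variable {F : Type*} [Field F]

theorem third : ∀ i j : Fin 3, ∃ k : Fin 3, i ≠ k ∧ k ≠ j := by decide

/-- elementary transvections are commutators -/
theorem comm_mat {i j k : Fin 3} (hij : i ≠ j) (hik : i ≠ k) (hkj : k ≠ j) (t : F) :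
    transvection i k t * transvection k j 1 =
      transvection i j t * transvection k j 1 * transvection i k t := by
  simp only [transvection, mul_add, add_mul, mul_one, one_mul, Matrix.single_mul_single_same,
    Matrix.single_mul_single_of_ne _ _ _ _ hij.symm, Matrix.single_mul_single_of_ne _ _ _ _ hkj.symm,
    zero_mul, add_zero]
  abel

theorem comm_sl {i j k : Fin 3} (hij : i ≠ j) (hik : i ≠ k) (hkj : k ≠ j) (t : F) :
    tvE i j hij t = tvE i k hik t * tvE k j hkj 1 * (tvE i k hik t)⁻¹ * (tvE k j hkj 1)⁻¹ := by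
  rw [eq_mul_inv_iff_mul_eq, eq_mul_inv_iff_mul_eq]
  apply Subtype.ext
  exact (comm_mat hij hik hkj t).symm

end PSI

open PSI in
theorem psi_thm (hGENT : GENTStmt) : PSIStmt := by
  intro F _
  rw [injective_iff_map_eq_one]
  intro α hα
  have h1 : ∀ g : SL3 F, ∃ z ∈ Subgroup.center (SL3 F), α g = g * z := by
    intro g
    have e1 : (QuotientGroup.mk g : PSL3 F) = QuotientGroup.mk (α g) := by
      have e2 := congrArg (fun β : MulAut (PSL3 F) => β (QuotientGroup.mk g)) hα
      exact e2.symm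
    rw [QuotientGroup.eq] at e1
    exact ⟨g⁻¹ * α g, e1, by group⟩
  have h2 : ∀ g h : SL3 F, α (g * h * g⁻¹ * h⁻¹) = g * h * g⁻¹ * h⁻¹ := by
    intro g h
    obtain ⟨z, hz, ez⟩ := h1 g
    obtain ⟨y, hy, ey⟩ := h1 h
    rw [Subgroup.mem_center_iff] at hz hy
    rw [map_mul, map_mul, map_mul, map_inv, map_inv, ez, ey]
    have e1 : g * z * (h * y) = g * h * (z * y) := by
      rw [mul_assoc, mul_assoc, ← mul_assoc z h y, ← hz h, mul_assoc]
    have e2 : (g * z)⁻¹ * (h * y)⁻¹ = (z * y)⁻¹ * (g⁻¹ * h⁻¹) := by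
      rw [← _root_.mul_inv_rev, ← _root_.mul_inv_rev, ← _root_.mul_inv_rev]
      congr 1
      rw [mul_assoc, mul_assoc, ← mul_assoc y g z, ← hy g, mul_assoc, hy z]
    calc g * z * (h * y) * (g * z)⁻¹ * (h * y)⁻¹
        = (g * z * (h * y)) * ((g * z)⁻¹ * (h * y)⁻¹) := by rw [mul_assoc]
      _ = g * h * (z * y) * ((z * y)⁻¹ * (g⁻¹ * h⁻¹)) := by rw [e1, e2]
      _ = g * h * g⁻¹ * h⁻¹ := by group
  have h3 : (α.toMonoidHom.eqLocus (MonoidHom.id (SL3 F)) : Subgroup (SL3 F)) = ⊤ := by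
    refine hGENT F _ ?_
    intro i j hij t
    obtain ⟨k, hik, hkj⟩ := third i j
    show α (tvE i j hij t) = tvE i j hij t
    rw [comm_sl hij hik hkj t]
    exact h2 _ _
  ext g : 1
  have h4 : g ∈ (α.toMonoidHom.eqLocus (MonoidHom.id (SL3 F)) : Subgroup (SL3 F)) := by
    rw [h3]
    exact Subgroup.mem_top g
  exact h4

end Pool.SCG
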