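import Pool.Agent.H24.SCG2.Base3

/-!
Project SCG2, module PLN: two planes.
-/

set_option autoImplicit false

namespace Pool.SCG

open Matrix

namespace PLN

variable {F : Type*} [Field F]

/-- linear systems of three equations -/
theorem solve {x y z : Fin 3 → F} (h : (Matrix.of ![x, y, z]).det ≠ 0) (a b c : F) :
    ∃ φ : Fin 3 → F, x ⬝ᵥ φ = a ∧ y ⬝ᵥ φ = b ∧ z ⬝ᵥ φ = c := by
  set M : Matrix (Fin 3) (Fin 3) F := Matrix.of ![x, y, z] with hM
  refine ⟨M⁻¹ *ᵥ ![a, b, c], ?_⟩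
  have h1 : M *ᵥ (M⁻¹ *ᵥ ![a, b, c]) = ![a, b, c] := by
    rw [Matrix.mulVec_mulVec, Matrix.mul_nonsing_inv _ (isUnit_iff_ne_zero.2 h),
      Matrix.one_mulVec]
  exact ⟨congrFun h1 0, congrFun h1 1, congrFun h1 2⟩

/-- independence of three vectors -/
theorem det_ne {x y z : Fin 3 → F}
    (h : ∀ a b c : F, a • x + b • y + c • z = 0 → a = 0 ∧ b = 0 ∧ c = 0) :
    (Matrix.of ![x, y, z]).det ≠ 0 := by
  intro h0
  obtain ⟨v, hv, hv0⟩ := Matrix.exists_vecMul_eq_zero_iff.2 h0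
  apply hv
  have h1 : v 0 • x + v 1 • y + v 2 • z = 0 := by
    rw [← hv0]
    ext j
    simp [Matrix.vecMul, dotProduct, Fin.sum_univ_three]
  obtain ⟨a, b, c⟩ := h _ _ _ h1
  ext i
  fin_cases i
  · exact a
  · exact b
  · exact c

/-- all transvections with centre `u` are in `H` -/
def Full (H : Subgroup (MulAut (SL3 F))) (u : Fin 3 → F) : Prop :=
  ∀ φ : Fin 3 → F, φ ⬝ᵥ u = 0 → InA H (1 + vecMulVec u φ)

theorem mul_id (u φ χ : Fin 3 → F) (h : φ ⬝ᵥ u = 0) :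
    (1 + vecMulVec u φ) * (1 + vecMulVec u χ) = 1 + vecMulVec u (φ + χ) := by
  rw [add_mul, mul_add, mul_add, vecMulVec_mul_vecMulVec, h, zero_smul, vecMulVec_add]
  simp only [one_mul, mul_one, vecMulVec_zero, add_zero]
  abel

theorem conj_id (η u φ' φ : Fin 3 → F) (h1 : φ' ⬝ᵥ (u - η) = 0) (h2 : φ' ⬝ᵥ η = 1)
    (h3 : φ ⬝ᵥ u = 0) :
    (1 + vecMulVec (u - η) φ') * (1 + vecMulVec η (φ - (φ ⬝ᵥ η) • φ')) *
      (1 + vecMulVec (u - η) (-φ')) = 1 + vecMulVec u φ := by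
  have h4 : (φ - (φ ⬝ᵥ η) • φ') ⬝ᵥ (u - η) = -(φ ⬝ᵥ η) := by
    rw [sub_dotProduct, smul_dotProduct, h1, dotProduct_sub, h3]
    simp
  have e1 : (1 + vecMulVec (u - η) φ') * (1 + vecMulVec η (φ - (φ ⬝ᵥ η) • φ')) =
      1 + vecMulVec (u - η) φ' + vecMulVec u (φ - (φ ⬝ᵥ η) • φ') := by
    rw [add_mul, mul_add, mul_add, vecMulVec_mul_vecMulVec, h2, one_smul, sub_vecMulVec,
      sub_vecMulVec]
    simp only [one_mul, mul_one]
    abel
  rw [e1, add_mul, add_mul, mul_add, mul_add, mul_add, vecMulVec_mul_vecMulVec,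
    vecMulVec_mul_vecMulVec, h1, h4, zero_smul]
  simp only [one_mul, mul_one, vecMulVec_zero, add_zero, vecMulVec_neg, vecMulVec_smul,
    vecMulVec_sub, smul_neg, neg_smul, sub_vecMulVec, neg_neg]
  abel

/-- moving the centre inside the plane -/
theorem full_move {H : Subgroup (MulAut (SL3 F))} {ψ w η u : Fin 3 → F}
    (hH : ∀ u φ : Fin 3 → F, ψ ⬝ᵥ u = 0 → φ ⬝ᵥ w = 0 → φ ⬝ᵥ u = 0 → InA H (1 + vecMulVec u φ))
    (hη : Full H η) (h1 : ψ ⬝ᵥ η = 0) (h2 : ψ ⬝ᵥ u = 0)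
    (hd : (Matrix.of ![w, u - η, η]).det ≠ 0) : Full H u := by
  intro φ hφ
  obtain ⟨φ', a, b, c⟩ := solve hd 0 0 1
  rw [dotProduct_comm] at a b c
  have hp : ψ ⬝ᵥ (u - η) = 0 := by rw [dotProduct_sub, h1, h2, sub_zero]
  rw [← conj_id η u φ' φ b c hφ]
  refine InA.mul (InA.mul (hH _ _ hp a b) (hη _ ?_)) (hH _ _ hp ?_ ?_)
  · rw [sub_dotProduct, smul_dotProduct, c]
    simp
  · rw [neg_dotProduct, a, neg_zero]
  · rw [neg_dotProduct, b, neg_zero]

/-- the common centre -/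
theorem full_eta {H : Subgroup (MulAut (SL3 F))} {ψ w ψ' w' η : Fin 3 → F}
    (hH : ∀ u φ : Fin 3 → F, ψ ⬝ᵥ u = 0 → φ ⬝ᵥ w = 0 → φ ⬝ᵥ u = 0 → InA H (1 + vecMulVec u φ))
    (hH' : ∀ u φ : Fin 3 → F, ψ' ⬝ᵥ u = 0 → φ ⬝ᵥ w' = 0 → φ ⬝ᵥ u = 0 →
      InA H (1 + vecMulVec u φ))
    (h1 : ψ ⬝ᵥ η = 0) (h2 : ψ' ⬝ᵥ η = 0) (hd : (Matrix.of ![η, w, w']).det ≠ 0) :
    Full H η := by
  intro φ hφ
  obtain ⟨φa, a, b, c⟩ := solve hd 0 0 (φ ⬝ᵥ w')
  rw [dotProduct_comm] at a b c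
  have e : φ = φa + (φ - φa) := by abel
  rw [e, ← mul_id _ _ _ a]
  refine InA.mul (hH _ _ h1 b a) (hH' _ _ h2 ?_ ?_)
  · rw [sub_dotProduct, c, sub_self]
  · rw [sub_dotProduct, a, hφ, sub_self]

end PLN

open PLN in
theorem pln_thm (hTRV : TRVStmt) : PLNStmt := by
  intro F _ H ψ w ψ' w' η hH hH' hw hw' hη hη' hd ⟨u, hu, hu'⟩
  have fη : Full H η := full_eta hH hH' hη hη' hd
  have η0 : η ≠ 0 := by
    rintro rfl
    apply hd
    rw [Matrix.det_fin_three]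
    simp
  -- the third vector
  set v : Fin 3 → F := w - ((ψ' ⬝ᵥ w) / (ψ' ⬝ᵥ u)) • u with hv
  have hv1 : ψ ⬝ᵥ v ≠ 0 := by
    rw [hv, dotProduct_sub, dotProduct_smul, hu]
    simpa using hw
  have hv2 : ψ' ⬝ᵥ v = 0 := by
    rw [hv, dotProduct_sub, dotProduct_smul, smul_eq_mul, div_mul_cancel₀ _ hu', sub_self]
  have smul0 : ∀ c : F, c • η = 0 → c = 0 := fun c h => (smul_eq_zero.1 h).resolve_right η0
  have fu : Full H u := by
    refine full_move hH fη hη hu (det_ne ?_)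
    intro a b c habc
    have e1 := congrArg (fun x => ψ ⬝ᵥ x) habc
    have e2 := congrArg (fun x => ψ' ⬝ᵥ x) habc
    simp only [dotProduct_add, dotProduct_smul, dotProduct_sub, hη, hη', hu, smul_eq_mul,
      dotProduct_zero, sub_zero, mul_zero, add_zero] at e1 e2
    have ha : a = 0 := (mul_eq_zero.1 e1).resolve_right hw
    subst ha
    rw [zero_mul, zero_add] at e2
    have hb : b = 0 := (mul_eq_zero.1 e2).resolve_right hu'
    subst hb
    rw [zero_smul, zero_smul, zero_add, zero_add] at habc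
    exact ⟨rfl, rfl, smul0 c habc⟩
  have fv : Full H v := by
    refine full_move hH' fη hη' hv2 (det_ne ?_)
    intro a b c habc
    have e1 := congrArg (fun x => ψ ⬝ᵥ x) habc
    have e2 := congrArg (fun x => ψ' ⬝ᵥ x) habc
    simp only [dotProduct_add, dotProduct_smul, dotProduct_sub, hη, hη', hv2, smul_eq_mul,
      dotProduct_zero, sub_zero, mul_zero, add_zero] at e1 e2
    have ha : a = 0 := (mul_eq_zero.1 e2).resolve_right hw'
    subst ha
    rw [zero_mul, zero_add] at e1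
    have hb : b = 0 := (mul_eq_zero.1 e1).resolve_right hv1
    subst hb
    rw [zero_smul, zero_smul, zero_add, zero_add] at habc
    exact ⟨rfl, rfl, smul0 c habc⟩
  have hdet : (Matrix.of ![η, u, v]).det ≠ 0 := by
    refine det_ne ?_
    intro a b c habc
    have e1 := congrArg (fun x => ψ ⬝ᵥ x) habc
    have e2 := congrArg (fun x => ψ' ⬝ᵥ x) habc
    simp only [dotProduct_add, dotProduct_smul, hη, hη', hv2, hu, smul_eq_mul,
      dotProduct_zero, mul_zero, add_zero, zero_add] at e1 e2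
    have hc : c = 0 := (mul_eq_zero.1 e1).resolve_right hv1
    have hb : b = 0 := (mul_eq_zero.1 e2).resolve_right hu'
    subst hb hc
    rw [zero_smul, zero_smul, add_zero, add_zero] at habc
    exact ⟨smul0 a habc, rfl, rfl⟩
  -- the basis
  have hfull : ∀ i : Fin 3, Full H (![η, u, v] i) := by
    intro i
    fin_cases i
    · exact fη
    · exact fu
    · exact fv
  have hdT : (Matrix.of ![η, u, v])ᵀ.det ≠ 0 := by rwa [Matrix.det_transpose]
  refine hTRV F H (Matrix.GeneralLinearGroup.mkOfDetNeZero (Matrix.of ![η, u, v])ᵀ hdT) ?_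
  intro i j hij t
  set P := Matrix.GeneralLinearGroup.mkOfDetNeZero (Matrix.of ![η, u, v])ᵀ hdT with hP
  have hPc : ∀ a b, (P : Matrix (Fin 3) (Fin 3) F) a b = ![η, u, v] b a := fun a b => rfl
  have hinv : ((P⁻¹ : GL (Fin 3) F) : Matrix (Fin 3) (Fin 3) F) *
      (P : Matrix (Fin 3) (Fin 3) F) = 1 := by
    rw [← Units.val_mul, inv_mul_cancel, Units.val_one]
  have hinv' : (P : Matrix (Fin 3) (Fin 3) F) *
      ((P⁻¹ : GL (Fin 3) F) : Matrix (Fin 3) (Fin 3) F) = 1 := by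
    rw [← Units.val_mul, mul_inv_cancel, Units.val_one]
  have e : (P : Matrix (Fin 3) (Fin 3) F) * transvection i j t *
      ((P⁻¹ : GL (Fin 3) F) : Matrix (Fin 3) (Fin 3) F) =
      1 + vecMulVec (![η, u, v] i)
        (t • fun b => ((P⁻¹ : GL (Fin 3) F) : Matrix (Fin 3) (Fin 3) F) j b) := by
    rw [transvection, mul_add, mul_one, add_mul, hinv']
    congr 1
    ext a b
    rw [Matrix.mul_apply, vecMulVec_apply, Pi.smul_apply, smul_eq_mul]
    simp only [Matrix.mul_apply, Matrix.single_apply, hPc]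
    simp only [mul_ite, mul_zero, Finset.sum_ite_eq, Finset.mem_univ, if_true, ite_and]
    rw [Finset.sum_eq_single j]
    · simp only [if_true]
      ring
    · intro k _ hk
      simp [Ne.symm hk]
    · simp
  rw [e]
  refine hfull i _ ?_
  rw [smul_dotProduct]
  have e2 := congrFun (congrFun hinv j) i
  rw [Matrix.mul_apply, Matrix.one_apply_ne hij.symm] at e2
  simp only [hPc] at e2
  show t • (∑ b, ((P⁻¹ : GL (Fin 3) F) : Matrix (Fin 3) (Fin 3) F) j b * ![η, u, v] i b) = 0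
  rw [e2, smul_zero]

end Pool.SCG
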